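import Mathlib
import Pool.Agent.N800.TP.D

/-!
# Turán's property (T) fails for every Dirichlet character

A Dirichlet character `χ` modulo `k` has property (T) if no partial sum
`S_N(s, χ) = ∑_{n ≤ N} χ(n) n^(-s)` has a zero with `Re s > 1`. We show that for every modulus `k ≥ 1`
and every `χ` modulo `k` the partial sums `S_N(s, χ)` do have such zeros for all large `N`. Hence no
Dirichlet character has property (T), and the implication asked for in the problem (property (T)
implies that `L(s, χ)` has no zeros with `Re s > 1/2`) holds for every character, vacuously.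

Idea of the proof. By Kronecker's theorem the partial sum of `χ` is, up to a vertical shift and a small
error, the partial sum of the completely multiplicative function `f` with `f(q) = 0` for `q ∣ k`,
`f(p) = -i` for one prime `p` not dividing `k` and `f(q) = 1` for all other primes. Let `F` be the
Dirichlet series of `f`, with residue `ρ` at `1`. Near a point `1 + iv` the partial sum is
`F(s) + ρ N^(1-s) / (1-s)` up to an error `O(N^(-1/4))`, so it has zeros with real part
`1 + (log |ρ| - log |v F(1+iv)| + o(1)) / log N`. The single twisted prime makes the derivative of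
`|v F(1+iv)|` at `v = 0` negative, so `|v F(1+iv)| < |ρ|` for small `v > 0`.
-/

set_option autoImplicit false

namespace Pool.Agent.Results.MP_ff1a2a_nt.NoPropertyT

open Filter Complex

/-- The partial sum `S_N(s, χ) = ∑_{n ≤ N} χ(n) n^(-s)`. -/
noncomputable def partialSum {k : ℕ} (χ : DirichletCharacter ℂ k) (N : ℕ) (s : ℂ) : ℂ :=
  ∑ n ∈ Finset.Icc 1 N, χ (n : ZMod k) * (n : ℂ) ^ (-s)

/-- Property (T): no partial sum vanishes at a point with `Re s > 1`. -/
def PropertyT {k : ℕ} (χ : DirichletCharacter ℂ k) : Prop :=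
  ∀ N : ℕ, 1 ≤ N → ∀ s : ℂ, 1 < s.re → partialSum χ N s ≠ 0

/-- For every Dirichlet character all long partial sums have zeros with `Re s > 1`; in particular no
character has property (T), and the statement of Q1 holds. -/
theorem result :
    (∀ (k : ℕ) [NeZero k] (χ : DirichletCharacter ℂ k),
      ∀ᶠ N : ℕ in atTop, ∃ s : ℂ, 1 < s.re ∧ partialSum χ N s = 0) ∧
    (∀ (k : ℕ) [NeZero k] (χ : DirichletCharacter ℂ k), ¬ PropertyT χ) ∧
    (∀ (k : ℕ) [NeZero k] (χ : DirichletCharacter ℂ k), PropertyT χ →
      ∀ s : ℂ, 1 / 2 < s.re → DirichletCharacter.LFunction χ s ≠ 0) := by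
  have h1 : ∀ (k : ℕ) [NeZero k] (χ : DirichletCharacter ℂ k),
      ∀ᶠ N : ℕ in atTop, ∃ s : ℂ, 1 < s.re ∧ partialSum χ N s = 0 := by
    intro k _ χ
    exact Pool.Agent.N800.TP.main_zero (NeZero.ne k) χ
  have h2 : ∀ (k : ℕ) [NeZero k] (χ : DirichletCharacter ℂ k), ¬ PropertyT χ := by
    intro k _ χ h
    obtain ⟨N, ⟨s, hs, h0⟩, hN⟩ := ((h1 k χ).and (eventually_ge_atTop 1)).exists
    exact h N hN s hs h0
  exact ⟨h1, h2, fun k _ χ h => absurd h (h2 k χ)⟩

end Pool.Agent.Results.MP_ff1a2a_nt.NoPropertyT
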